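import Pool.Agent.helper60.RF.SpecB

/-!
# RF (MP_16912e_nt), row `rf:TRA`: the relations of the parametrisation
-/

set_option autoImplicit false

namespace Pool.Agent.RF

open NumberField

open scoped QuadraticAlgebra

theorem TRA_star_int (a : ℤ) : star (a : OO) = a := by
  ext <;> simp

theorem TRA_norm_ne (n : OO) (h : (25 : OO) ∣ n - 1) : n.norm ≠ 0 := by
  obtain ⟨u, hu⟩ := h
  have h1 := congrArg QuadraticAlgebra.re hu
  have h2 := congrArg QuadraticAlgebra.im hu
  simp at h1 h2
  intro h0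
  rw [QuadraticAlgebra.norm_def] at h0
  have e1 : n.re = 1 + 25 * u.re := by linarith
  have e2 : n.im = 25 * u.im := by linarith
  rw [e1, e2] at h0
  ring_nf at h0
  omega

theorem TRA_cancel (n x y : OO) (h : n.norm ≠ 0) (e : n * star n * x = n * star n * y) : x = y := by
  rw [← QuadraticAlgebra.algebraMap_norm_eq_mul_star] at e
  have h1 := congrArg QuadraticAlgebra.re e
  have h2 := congrArg QuadraticAlgebra.im e
  simp at h1 h2
  ext
  · rcases h1 with h1 | h1
    · exact h1
    · exact absurd h1 h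
  · rcases h2 with h2 | h2
    · exact h2
    · exact absurd h2 h

theorem TRA_ph : ph * ph = 1 + ph := by
  ext <;> simp [ph]

theorem TRA_phs : star ph = 1 - ph := by
  ext <;> simp [ph]

theorem TRA_w2 : w2 = 2 + ph := by
  ext <;> simp [w2, ph]

theorem TRA_r5 : r5 = 2 * ph - 1 := by
  ext <;> simp [r5, ph]

theorem TRA_25 : star (25 : OO) = 25 := by
  ext <;> simp

theorem TRA_2 : star (2 : OO) = 2 := by
  ext <;> simp

theorem TRA_1 : star (1 : OO) = 1 := by
  ext <;> simp

theorem TRA : TRA_stmt := by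
  intro p hp
  have e1 := hp.e1
  have e2 := hp.e2
  have s1 := congrArg star e1
  have s2 := congrArg star e2
  simp only [star_add, star_sub, star_mul, star_pow, star_star, TRA_phs, TRA_w2, TRA_25, TRA_star_int, TRA_2] at s1 s2 e2
  rw [TRA_w2] at e1
  have hph := TRA_ph
  have hn := TRA_norm_ne p.n hp.n1
  simp only [star_mul, star_pow, star_star, TRA_phs, TRA_25]
  have hcop : IsCoprime p.n (25 * p.k) := by
    refine IsCoprime.mul_right ?_ hp.kn.symm
    obtain ⟨u, hu⟩ := hp.n1
    exact ⟨1, -u, by linear_combination hu⟩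
  refine ⟨?_, ?_, ?_⟩
  · linear_combination e2 + ph * s2 - p.X * (25 * star p.k) * hph
  · refine TRA_cancel p.n _ _ hn ?_
    linear_combination (star p.n * star p.M) * e2 + (ph * star p.X * (25 * p.k) - p.X * (star p.k * 25)) * s2 - ph * (25 * p.k) ^ 2 * s1 - (1 - ph) * (25 * star p.k) ^ 2 * e1 + (-(p.X * star p.X * (25 * p.k) * (25 * star p.k)) - 2 * (p.D : OO) * (25 * p.k) ^ 2 * (25 * star p.k) ^ 2) * hph
  · refine hcop.dvd_of_dvd_mul_left ?_
    refine ⟨(ph - 1) * p.X * p.M + (ph - 1) * p.n * star p.n * (25 * star p.k), ?_⟩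
    rw [TRA_r5]
    linear_combination -((ph - 1) * p.X) * e2 + (ph - 1) * (25 * star p.k) * e1 + (-(25 * p.k * p.X * star p.X) - (p.D : OO) * (25 * p.k) ^ 2 * (25 * star p.k)) * hph

end Pool.Agent.RF
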