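import Pool.Agent.helper60.RF.SpecB
import Pool.Agent.helper88.RF.SpecW

set_option autoImplicit false

/-!
# RF (MP_16912e_nt), STAGE 2, block B', part L (helper33): labels at all primes `l ∣ f`, also at the primes `l ∣ g` of the content

RULES. Row `rf:XXX`: file `Pool/Agent/<seat>/RF/XXX.lean`, `import Pool.Agent.helper33.RF.SpecL`, `set_option autoImplicit false`, `namespace Pool.Agent.RF`, `open NumberField`, auxiliary lemmas prefixed `XXX_`; the EXACT theorem line is in the lock note.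
No `convert`, `congr!`, `native_decide`, no double quotes. Rows are independent (other rows only as hypotheses; unused ones may be dropped, any proved row of RF may be added or its file imported).

NOTATION. `π` = a prime element of `OO`, `v` = the valuation at `π` (`v x ≥ m` means `π ^ m ∣ x`, `v x ≤ m` means `¬ π ^ (m+1) ∣ x`); `l` = a prime number, `l ≠ 2, 5`; `c` = the exponent of `l` in `g = ct p`; `j` = the exponent of `l` in `f`; `W = -(w2 * D₀) = w²`; `HH W a b = 5 a⁴ + 10 a² b² W + b⁴ W²`, so that `(a + b w)⁵ = .. + b HH w`.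
MODELS: `helper61/RF/YDV.lean` (the coefficient of `w`; lemmas `YDV_R`, `YDV_ww`, `YDV_ssw`), `helper92/RF/LAB.lean`, `helper60/RF/TRI.lean`, `helper41/RF/MUL.lean` (how they are combined), `helper33/RF/TRA.lean` (identities in `OO`).
-/

namespace Pool.Agent.RF

open NumberField

/-- the form -/
def HH (W a b : OO) : OO := 5 * a ^ 4 + 10 * a ^ 2 * b ^ 2 * W + b ^ 4 * W ^ 2

/-! ## 1. Valuations in `OO` -/

/-- **YVM** (short, PURE; from WEU of helper88/RF/SpecW.lean: `OO` is a domain).  Valuation calculus at a prime element.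
Proof. `emultiplicity_mul`, `pow_dvd_iff_le_emultiplicity`, `emultiplicity_lt_iff_not_dvd` (or induction on `m`).  (3): if `v x < v y` then `v (x + y) = v x`. -/
def YVM_stmt : Prop := ∀ π : OO, Prime π →
  (∀ (x y : OO) (j m : ℕ), π ^ j ∣ x * y → ¬ π ^ (m + 1) ∣ y → π ^ (j - m) ∣ x) ∧
  (∀ (x y : OO) (j m : ℕ), ¬ π ^ (j + 1) ∣ x → ¬ π ^ (m + 1) ∣ y → ¬ π ^ (j + m + 1) ∣ x * y) ∧
  (∀ (x y : OO) (m : ℕ), π ^ m ∣ y → ¬ π ^ m ∣ x → ¬ π ^ m ∣ x + y)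

/-- **YPL** (medium, PURE; from WEU).  The primes above a prime number `l ≠ 5`.
Proof. `OO` is a PID, so a UFD (WEU).  `(l : OO)` is a nonzero nonunit (norm `l²`).  Let `π` be a prime factor of `l`: `norm π ∣ l²` and it is not a unit, so `norm π = ± l` or `± l²`.  If `± l²`: `l` is associated to `π` (the cofactor has norm `± 1`), take `S = {π}`.  If `± l`: `l = ± π π'` (`π' = star π`); `π` and `π'` are not associated: otherwise `π ∣ π - π' = π.im r5`, so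
(norms) `l ∣ 5 π.im²`, `l ∣ π.im`, and `l ∣ norm π = re² + re im - im²` gives `l ∣ π.re`, `l ∣ π`, `l² ∣ norm π`: contradiction; take `S = {π, π'}`; `π`, `π'` are coprime primes.  `π² ∤ l`: `π²` would divide `π π'` (inert case: `l² ∣ l` no).  An integer `m` divisible by `π`: `norm π ∣ m²`, so `l ∣ m`.  Last claim: one prime: `l = u π`; two: `π^m`, `π'^m` coprime. -/
def YPL_stmt : Prop := ∀ l : ℕ, l.Prime → l ≠ 5 → ∃ S : Finset OO, S.card ≤ 2 ∧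
  (∀ π ∈ S, Prime π ∧ π ∣ (l : OO) ∧ ¬ π ^ 2 ∣ (l : OO) ∧ (∀ m : ℤ, π ∣ (m : OO) → (l : ℤ) ∣ m)) ∧
  (∀ π : OO, Prime π → π ∣ (l : OO) → ∃ π₁ ∈ S, Associated π π₁) ∧
  ∀ (m : ℕ) (x : OO), (∀ π ∈ S, π ^ m ∣ x) → (l : OO) ^ m ∣ x

/-- **YNV** (medium, PURE; from TRA, YVM, YPL).  Bounded valuations: if the exponent of `l` in `f` is more than twice the exponent `c` in the content, then `v n, v n' ≤ 2 c`.
Proof. `g = ct p`, `n = g n₁`, `gcd (n₁.re, n₁.im) = 1`; `v g = c` (`g = l^c g'`, `l ∤ g'`; `v l = 1`, `π ∤ g'` by the last property of YPL).  `π` does not divide both `n₁` and `n₁'`: otherwise it divides `n₁ - n₁' = n₁.im r5`, so `n₁.im` (`r5 r5 = 5`, `l ≠ 5`), so `l ∣ n₁.im`, and `n₁.re = n₁ - n₁.im φ`, `l ∣ n₁.re`: contradiction.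
`k, k', 2, 5` are not divisible by `π` if `π ∣ n` or `π ∣ n'` (`kn`, `kn'` and their conjugates, `n2`, `n1`, `l ≠ 2, 5`); in general `π ∤ 25` as `l ≠ 5`.
CASE 1: suppose `π^(2c+1) ∣ n'`.  Then `π ∣ n₁'` (`v g = c`), so `π ∤ n₁`, `v n = c`.  TRA (2): `M M' = -(φ n' K² + φ' n K'²)`: the first term has `v ≥ 2c + 1`, the second `v = c` (`K' = 25 k'` unit at `π`: `π ∣ n'`, and `k` is coprime to `n`, so `k'` is coprime to `n'`), so `v (M M') = c`, `v M ≤ c`, `v M' ≤ c`.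
TRA (1): `2 X K' = -(n M + φ n' M')`, `v (n M) = c + v M ≤ 2c`, `v (n' M') ≥ 2c + 1`: so `v (2 X K') ≤ 2c`, `¬ π^(2c+1) ∣ X`, `¬ π^(4c+1) ∣ X²` (YVM (2)).  `e1`: `X² = n² n' - w2 D (25 k)²`: `v (n² n') ≥ 2c + 2c + 1`, `v D ≥ 2j ≥ 4c + 2`: `π^(4c+1) ∣ X²`: contradiction.
CASE 2: suppose `π^(2c+1) ∣ n`: `π ∣ n₁`, `π ∤ n₁'`, `v n' = c`.  `v (φ n' K²) = c` (`K = 25 k` coprime to `n`), `v (φ' n K'²) ≥ 2c + 1`: `v (M M') = c`, `v M' ≤ c`; `v (n M) ≥ 2c + 1`, `v (φ n' M') = c + v M' ≤ 2c`: `v (2 X K') ≤ 2c`; `v (n² n') ≥ 4c + 2 + c`: the same contradiction. -/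
def YNV_stmt : Prop := ∀ p : Pt, IsPt p → ∀ (l j : ℕ), l.Prime → l ≠ 2 → l ≠ 5 → 2 * (ct p).factorization l < j → (l : ℤ) ^ (2 * j) ∣ p.D →
  ∀ π : OO, Prime π → π ∣ (l : OO) →
    ¬ π ^ (2 * (ct p).factorization l + 1) ∣ p.n ∧ ¬ π ^ (2 * (ct p).factorization l + 1) ∣ star p.n

/-! ## 2. The coefficient of `w` -/

/-- **YDL** (medium; from TRA, TID, GDV, YVM, YPL, YNV).  The coefficient of `w` of `(10 z)⁵` at a prime `l ∣ g`.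
Proof. As in `helper61/RF/YDV.lean`: `(10 z)⁵ = ι A + ι B w`, `B = b HH`, and `Θ² σΘ = ι u + ι v f w`, so `Zr` times `10⁵` and `ind` give `B g⁵ (n_p' n_q')² = f (10⁵ v)`.  Let `π ∣ l`: `π^j` divides the right side (`l^j ∣ f`); `v (g⁵) = 5c`, `v ((n_p' n_q')²) ≤ 8c` (YNV for `p` and `q`; `l^(2j) ∣ D = D₀ f²`), so `v B ≥ j - 13c` (YVM); all `π` of YPL: `l^(j - 13c) ∣ B`.
Second claim: `(10 z)(10 τz) = ι (a² - b² W)` (`τ w = - w`), times `g²`: `(a² - b² W) g² = 100 n_p n_q` (`ind`); `v` of the right side is at most `4c` (`π ∤ 100`), `v (g²) = 2c`: `v (a² - b² W) ≤ 2c`.  (`ct p ≠ 0`: GDV.) -/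
def YDL_stmt : Prop := ∀ (D₀ : ℤ) (F : Type) [Field F] [NumberField F] (C : Ctx D₀ F) (p q : Pt) (f : ℕ), Squarefree D₀ →
  IsPt p → IsPt q → p.D = D₀ * (f : ℤ) ^ 2 → q.D = D₀ * (f : ℤ) ^ 2 → ct p = ct q → ∀ z : 𝓞 F, Zr C f (ct p) p q z →
  z * C.σ (C.σ z) * (ct p : 𝓞 F) ^ 2 = C.ι (p.n * q.n) →
  ∀ (a b : OO), 10 * z = C.ι a + C.ι b * C.w → ∀ (l j : ℕ), l.Prime → l ≠ 2 → l ≠ 5 → l ^ j ∣ f → 2 * (ct p).factorization l < j →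
  (l : OO) ^ (j - 13 * (ct p).factorization l) ∣ b * HH (-(w2 * (D₀ : OO))) a b ∧
  ∀ π : OO, Prime π → π ∣ (l : OO) → ¬ π ^ (2 * (ct p).factorization l + 1) ∣ a ^ 2 - b ^ 2 * (-(w2 * (D₀ : OO)))

/-! ## 3. Labels -/

/-- **YLP** (medium, PURE; from YVM).  Labels at one prime element `π` (2 and `r5` are units at `π`, so 5 is).
Proof. If `J ≤ 13 c` the claim is trivial (`J - 13c = 0`).  Let `J > 13 c`.  Let `x = (a, b)` satisfy the two conditions.  `v W ≤ 1`.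
CASE A: `π^(2c+1) ∣ b`.  `v (b² W) ≥ 4c + 2`, so `v (a²) ≤ 2c` (otherwise `v (a² - b² W) ≥ 2c + 1`), so `¬ π^(c+1) ∣ a`, `v (5 a⁴) ≤ 4c`, the other terms of `HH` have `v ≥ 4c + 2`, so `v HH ≤ 4c`, `π^(J - 4c) ∣ b`.
CASE B: `¬ π^(2c+1) ∣ b`: `π^(J - 2c) ∣ HH`.  `HH = H₁ H₂`, `H₁ = r5 a² + (r5 - 2) b² W`, `H₂ = r5 a² + (r5 + 2) b² W` (`r5² = 5`; `(r5 - 2)(r5 + 2) = 1`, so both are units), `H₂ - H₁ = 4 b² W` has `v ≤ 4c + 1`.  CASE B1: `π^(4c+2) ∣ H₁`: then `¬ π^(4c+2) ∣ H₂`, so `π^(J - 6c - 1) ∣ H₁`.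
CASE B2: `¬ π^(4c+2) ∣ H₁`: `π^(J - 6c - 1) ∣ H₂`.  In both cases `¬ π^(2c+1) ∣ a`: otherwise `v (a²) ≥ 4c + 2`, `v (b² W) ≤ 4c + 1`, so `v H₁, v H₂ ≤ 4c + 1`, `v HH ≤ 8c + 2`, but `J - 2c ≥ 11 c + 1 ≥ 8c + 3` (`c ≥ 1`).
Two elements `x = (a, b)`, `y = (a₁, b₁)` of B1 (the same for B2): `r5 (a b₁ - a₁ b)(a b₁ + a₁ b) = b₁² H₁(a, b) - b² H₁(a₁, b₁)` is divisible by `π^(J - 6c - 1)`, and `v (2 a b₁) ≤ 4c`, so not both factors are divisible by `π^(4c+1)`: if `¬ π^(4c+1) ∣ a b₁ + a₁ b` then `π^(J - 10c - 1) ∣ a b₁ - a₁ b`, and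
if `¬ π^(4c+1) ∣ a b₁ - a₁ b` then `π^(J - 10c - 1) ∣ a b₁ + a₁ b`.  REFERENCE: if B1 (B2) is not empty fix `(a₀, b₀)` in it; sign `+` of `(a, b)`: `π^(4c+1) ∣ a b₀ - a₀ b`.  Two elements with the same sign: `b₀ (a b₁ - a₁ b) = b₁ (a b₀ - a₀ b) - b (a₁ b₀ - a₀ b₁) = b₁ (a b₀ + a₀ b) - b (a₁ b₀ + a₀ b₁)` is divisible by `π^(J - 10c - 1)`,
`v b₀ ≤ 2c`: `π^(J - 12c - 1) ∣ a b₁ - a₁ b`, and `12 c + 1 ≤ 13 c`.  Labels: A, B1+, B1-, B2+, B2- (in A: `π^(J - 4c)` divides both terms). -/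
def YLP_stmt : Prop := ∀ (π W : OO) (c J : ℕ), Prime π → ¬ π ∣ 2 → ¬ π ∣ r5 → ¬ π ^ 2 ∣ W → 1 ≤ c → ∃ lab : OO × OO → Fin 6, ∀ x y : OO × OO,
  π ^ J ∣ x.2 * HH W x.1 x.2 → ¬ π ^ (2 * c + 1) ∣ x.1 ^ 2 - x.2 ^ 2 * W →
  π ^ J ∣ y.2 * HH W y.1 y.2 → ¬ π ^ (2 * c + 1) ∣ y.1 ^ 2 - y.2 ^ 2 * W →
  lab x = lab y → π ^ (J - 13 * c) ∣ x.1 * y.2 - y.1 * x.2

/-- **YLG** (short-medium, PURE; from YLP, YPL, YVM).  Labels at a prime number `l ≠ 2, 5`.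
Proof. `S` of YPL; for `π ∈ S`: `π ∤ 2`, `π ∤ r5` (`π ∣ 5` would give `l ∣ 5`), `π² ∤ W`: `W W' = 5 D₀²` is not enough; use: `w2 * star w2 = 5`, so `π² ∣ w2 D₀` gives `π² ∣ D₀` (YVM (1), `π ∤ w2`), so `l ∣ D₀ = l D₁`, `v l ≤ 1` gives `π ∣ D₁`, `l ∣ D₁`, `l² ∣ D₀`: contradiction to squarefree.  `lab` = the labels of YLP for the at most two elements of `S` (`Fin 6 × Fin 6 ≃ Fin 36`, `finProdFinEquiv`; if `S` is `{π}` or empty fill with `0`).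
Equal labels: `π^(J - 13c)` divides for all `π ∈ S`, so `l^(J - 13c)` does (YPL). -/
def YLG_stmt : Prop := ∀ (l : ℕ) (D₀ : ℤ) (c J : ℕ), l.Prime → l ≠ 2 → l ≠ 5 → Squarefree D₀ → 1 ≤ c → ∃ lab : OO × OO → Fin 36, ∀ x y : OO × OO,
  (l : OO) ^ J ∣ x.2 * HH (-(w2 * (D₀ : OO))) x.1 x.2 → (∀ π : OO, Prime π → π ∣ (l : OO) → ¬ π ^ (2 * c + 1) ∣ x.1 ^ 2 - x.2 ^ 2 * (-(w2 * (D₀ : OO)))) →
  (l : OO) ^ J ∣ y.2 * HH (-(w2 * (D₀ : OO))) y.1 y.2 → (∀ π : OO, Prime π → π ∣ (l : OO) → ¬ π ^ (2 * c + 1) ∣ y.1 ^ 2 - y.2 ^ 2 * (-(w2 * (D₀ : OO)))) →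
  lab x = lab y → (l : OO) ^ (J - 13 * c) ∣ x.1 * y.2 - y.1 * x.2

/-! ## 4. Output -/

/-- **YTR** (short-medium; from TRI, TID).  Three points, in coordinates.
Proof. TRI: `g τz₁ z₂ = ι n_o z₃`.  `10 τz₁ = ι a₁ - ι b₁ w`, `(10 τz₁)(10 z₂) = ι (a₁ a₂ - b₁ b₂ W) + ι (a₁ b₂ - a₂ b₁) w`; multiply TRI by 100 and use `ind`. -/
def YTR_stmt : Prop := ∀ (D₀ : ℤ) (F : Type) [Field F] [NumberField F] (C : Ctx D₀ F) (o p q : Pt) (f g : ℕ), 0 < g →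
  IsPt o → IsPt p → IsPt q → o.D = D₀ * (f : ℤ) ^ 2 → p.D = D₀ * (f : ℤ) ^ 2 → q.D = D₀ * (f : ℤ) ^ 2 →
  ∀ z₁ z₂ z₃ : 𝓞 F, Zr C f g o p z₁ → Zr C f g o q z₂ → Zr C f g p q z₃ →
  ∀ a₁ b₁ a₂ b₂ a b : OO, 10 * z₁ = C.ι a₁ + C.ι b₁ * C.w → 10 * z₂ = C.ι a₂ + C.ι b₂ * C.w → 10 * z₃ = C.ι a + C.ι b * C.w →
  (g : OO) * (a₁ * b₂ - a₂ * b₁) = 10 * o.n * b

/-- **YAG** (medium; from YDL, YLG, YTR, YNV, YVM, YPL, GDV).  The label at a prime `l ∣ g`.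
Proof. `c = g.factorization l ≥ 1`, `j = f.factorization l`.  If `j ≤ 28 c` every labelling works (exponent 0).  Let `j > 28 c`.  `l ≠ 2, 5` (`l ∣ g ∣ n`, `n2`, `n1`; or `D = 17 mod 20` and `l ∣ f`).  `lab p` = the label (YLG with `J = j - 13c`) of `(a_p, b_p)`, where `10 z_p = ι a_p + ι b_p w` (`co`, choice); YDL for `(o, p)` gives the hypotheses.
Equal labels: `l^(j - 26c) ∣ a_p b_q - a_q b_p`, so (YTR) `l^(j - 26c) ∣ 10 n_o b`; for `π ∣ l`: `v (10 n_o) ≤ 2c` (YNV), so `π^(j - 28c) ∣ b`; YPL. -/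
def YAG_stmt : Prop := ∀ (D₀ : ℤ) (F : Type) [Field F] [NumberField F] (C : Ctx D₀ F) (f g : ℕ), Squarefree D₀ → 0 < D₀ →
  ∀ S : Finset Pt, (∀ p ∈ S, IsPt p ∧ p.D = D₀ * (f : ℤ) ^ 2 ∧ ct p = g) → ∀ o ∈ S, ∀ z : Pt → 𝓞 F,
  (∀ p ∈ S, Zr C f g o p (z p) ∧ z p * C.σ (C.σ (z p)) * (g : 𝓞 F) ^ 2 = C.ι (o.n * p.n)) →
  ∀ l : ℕ, l.Prime → l ∣ g → ∃ lab : Pt → Fin 36, ∀ p ∈ S, ∀ q ∈ S, lab p = lab q → ∀ y : 𝓞 F, Zr C f g p q y →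
    y * C.σ (C.σ y) * (g : 𝓞 F) ^ 2 = C.ι (p.n * q.n) → ∀ a b : OO, 10 * y = C.ι a + C.ι b * C.w →
      (l : OO) ^ (f.factorization l - 28 * g.factorization l) ∣ b

/-- **YAN** (short-medium; from LAB, YDV, YTR, GDV).  The label at a prime `l ∣ f`, `l ∤ g` (as in `helper41/RF/MUL.lean`).
Proof. `e = f.factorization l ≥ 1`; `l ≠ 2, 5` (`D = D₀ f²`, `D % 20 = 17`).  LAB with `W = -(w2 D₀)`, `lab p` = the label of `(a_p, b_p)`; YDV for `(o, p)` gives the divisibility by `l^e`, so by `l`.  Equal labels: `l ∣ a_p b_q - a_q b_p`, `l ∣ 10 n_o b` (YTR), `l` is coprime to `10 n_o` (YDV (1) for `(o, p)`), `l ∣ b`, so `l^e ∣ b` (YDV (3) for `(p, q)`); `g.factorization l = 0`. -/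
def YAN_stmt : Prop := ∀ (D₀ : ℤ) (F : Type) [Field F] [NumberField F] (C : Ctx D₀ F) (f g : ℕ), Squarefree D₀ → 0 < D₀ →
  ∀ S : Finset Pt, (∀ p ∈ S, IsPt p ∧ p.D = D₀ * (f : ℤ) ^ 2 ∧ ct p = g) → ∀ o ∈ S, ∀ z : Pt → 𝓞 F,
  (∀ p ∈ S, Zr C f g o p (z p) ∧ z p * C.σ (C.σ (z p)) * (g : 𝓞 F) ^ 2 = C.ι (o.n * p.n)) →
  ∀ l : ℕ, l.Prime → l ∣ f → ¬ l ∣ g → ∃ lab : Pt → Fin 36, ∀ p ∈ S, ∀ q ∈ S, lab p = lab q → ∀ y : 𝓞 F, Zr C f g p q y →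
    y * C.σ (C.σ y) * (g : 𝓞 F) ^ 2 = C.ι (p.n * q.n) → ∀ a b : OO, 10 * y = C.ι a + C.ι b * C.w →
      (l : OO) ^ (f.factorization l - 28 * g.factorization l) ∣ b

/-- **LAO** (short; from YAG, YAN): OUTPUT OF PART L, for all primes `l ∣ f`. -/
def LAO_stmt : Prop := ∀ (D₀ : ℤ) (F : Type) [Field F] [NumberField F] (C : Ctx D₀ F) (f g : ℕ), Squarefree D₀ → 0 < D₀ →
  ∀ S : Finset Pt, (∀ p ∈ S, IsPt p ∧ p.D = D₀ * (f : ℤ) ^ 2 ∧ ct p = g) → ∀ o ∈ S, ∀ z : Pt → 𝓞 F,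
  (∀ p ∈ S, Zr C f g o p (z p) ∧ z p * C.σ (C.σ (z p)) * (g : 𝓞 F) ^ 2 = C.ι (o.n * p.n)) →
  ∀ l : ℕ, l.Prime → l ∣ f → ∃ lab : Pt → Fin 36, ∀ p ∈ S, ∀ q ∈ S, lab p = lab q → ∀ y : 𝓞 F, Zr C f g p q y →
    y * C.σ (C.σ y) * (g : 𝓞 F) ^ 2 = C.ι (p.n * q.n) → ∀ a b : OO, 10 * y = C.ι a + C.ι b * C.w →
      (l : OO) ^ (f.factorization l - 28 * g.factorization l) ∣ b

end Pool.Agent.RF
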