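import Pool.Agent.helper13.RF.SpecU
import Pool.Agent.helper33.RF.TRA

/-!
# RF (MP_16912e_nt), stage 2, row `rf:UUV`: the coordinates of `u`
-/

set_option autoImplicit false

namespace Pool.Agent.RF

open NumberField

theorem UUV (hWEU : WEU_stmt) (h1 : UTR_stmt) : UUV_stmt := by
  have hd : IsDomain OO := hWEU.1
  have hp : IsPrincipalIdealRing OO := hWEU.2
  intro p hp2
  obtain ⟨T, hT1, hT2⟩ := (h1 p hp2).2.2
  have hph := TRA_ph
  have e1 := hp2.e1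
  have s1 := congrArg star e1
  have sT := congrArg star hT2
  simp only [star_add, star_sub, star_mul, star_pow, star_star, TRA_phs, TRA_w2, TRA_25, TRA_star_int, TRA_2] at s1 sT
  rw [TRA_w2] at e1
  simp only [star_mul, TRA_25, TRA_w2]
  have hns : star p.n ≠ 0 := by
    intro h0
    have h2 : p.n = 0 := by rw [← star_star p.n, h0, star_zero]
    exact TRA_norm_ne p.n hp2.n1 (by rw [h2]; exact QuadraticAlgebra.norm_zero)
  have hV : (ph * star T) * star p.n ^ 2 = (ph - 1) * (star p.k * 25) * (p.X ^ 2 - (2 + ph) * (p.D : OO) * (25 * p.k) ^ 2) +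
      2 * p.X * star p.X * (25 * p.k) := by
    linear_combination ph * sT + (50 * p.X * p.k * star p.X + 31250 * (p.D : OO) * p.k ^ 2 * star p.k +
      25 * p.X ^ 2 * star p.k * (ph - 1)) * hph
  have hA : ((p.X ^ 2 - (2 + ph) * (p.D : OO) * (25 * p.k) ^ 2) * star p.X -
      2 * (ph - 1) * (2 + ph) * (p.D : OO) * p.X * (25 * p.k) * (star p.k * 25)) ^ 2 =
      (star p.n ^ 2) ^ 2 * (p.n ^ 5 - (2 + ph) * (p.D : OO) * (ph * star T) ^ 2) := by
    linear_combination ((2 + ph) * (p.D : OO) * ((ph * star T) * star p.n ^ 2 + ((ph - 1) * (star p.k * 25) *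
        (p.X ^ 2 - (2 + ph) * (p.D : OO) * (25 * p.k) ^ 2) + 2 * p.X * star p.X * (25 * p.k)))) * hV +
      (p.X ^ 2 + (2 + ph) * (p.D : OO) * (25 * p.k) ^ 2 + p.n ^ 2 * star p.n) *
        (star p.X ^ 2 + (star p.k * 25) ^ 2 * ((p.D : OO) * (2 + (1 - ph)))) * e1 +
      (p.n ^ 2 * star p.n) ^ 2 * s1 +
      ((4 + 6 * ph + 2 * ph ^ 2) * (p.X ^ 2 * (25 * p.k) ^ 2 * (star p.k * 25) ^ 2 * (p.D : OO) ^ 2) +
        (1 + ph) * (p.X ^ 4 * (star p.k * 25) ^ 2 * (p.D : OO)) +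
        (4 + 8 * ph + 5 * ph ^ 2 + ph ^ 3) * ((25 * p.k) ^ 4 * (star p.k * 25) ^ 2 * (p.D : OO) ^ 3)) * hph
  have hdvd : star p.n ^ 2 ∣ (p.X ^ 2 - (2 + ph) * (p.D : OO) * (25 * p.k) ^ 2) * star p.X -
      2 * (ph - 1) * (2 + ph) * (p.D : OO) * p.X * (25 * p.k) * (star p.k * 25) := by
    rw [← IsIntegrallyClosed.pow_dvd_pow_iff (two_ne_zero)]
    exact ⟨_, hA⟩
  obtain ⟨U, hU⟩ := hdvd
  refine ⟨U, ph * star T, by rw [hU]; ring, hV, ?_⟩
  rw [hU] at hA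
  have h4 : (star p.n ^ 2) ^ 2 ≠ 0 := pow_ne_zero 2 (pow_ne_zero 2 hns)
  refine mul_left_cancel₀ h4 ?_
  linear_combination hA

end Pool.Agent.RF
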